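import Pool.Agent.Work.MP_0e72ae_gt.NoMain

/-!
The polynomial comparison of ordinary and convexified Hilbert packing numbers fails.
-/

namespace Pool.Agent.Work.MP_0e72ae_gt.Parked.NoPoly

open Pool.Agent.Work.MP_0e72ae_gt

theorem result :
    ∀ C₀ c₀ q : ℝ, 0 < C₀ → 0 < c₀ → 1 ≤ q →
      ∃ (d : ℕ) (G K : Set (E d)) (α : ℝ), 1 ≤ d ∧ Admissible G K ∧ 0 < α ∧
        C₀ * (convPacking G K (c₀ * α) : ℝ) ^ q < (packing G K α : ℝ) :=
  no_poly

end Pool.Agent.Work.MP_0e72ae_gt.Parked.NoPoly
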